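import Mathlib
import Pool.Agent.V11327.CHfinal

/-! The binary Champernowne doubling orbit has weak pair correlations. -/

namespace Pool.Agent.Results.MP_3b2897_nt.WeakPairCorr

open Filter Topology V11327.CH

/-- There is `β` in `(0,1)` such that for every `s ≥ 0` the number of ordered pairs of distinct
indices `l, m ≤ N` with `‖x l - x m‖ ≤ s N ^ (-β)`, multiplied by `N ^ (β - 2)`, tends to `2 s`,
where `x n = {2 ^ n α}` and `α` is the binary Champernowne constant. -/
theorem result : ∃ β : ℝ, 0 < β ∧ β < 1 ∧ ∀ s : ℝ, 0 ≤ s →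
    Tendsto (fun N : ℕ => (N:ℝ) ^ (β - 2) *
      (pairCount x N (s * (N:ℝ) ^ (-β)) : ℝ)) atTop (𝓝 (2 * s)) :=
  ⟨1 / 8, by norm_num, by norm_num, fun s hs => main s hs⟩

end Pool.Agent.Results.MP_3b2897_nt.WeakPairCorr
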